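import Mathlib
import Pool.Agent.Helper467.FP.Stmt
import Pool.Agent.Helper467.FP.P_main_iso

set_option autoImplicit false

open scoped InnerProductSpace Topology BoundedContinuousFunction
open Filter

namespace Pool.Agent.Results.MP_02fb88_an.KuroshUltra

open Pool.Agent.H467S

universe u v

theorem convFactor (M : IIOneFactor.{u}) :
    H467F.IsIIOneFactor (H := M.H) M.N (fun x : H467F.Elt M.N => M.t x) := by
  refine ⟨?_, ?_, ⟨?_, ?_, ?_⟩, ?_⟩
  · intro z hz h
    obtain ⟨c, hc⟩ := M.spec.center (⟨z, hz⟩ : M.N.toStarSubalgebra)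
      (fun x => Subtype.ext (h x.1 x.2))
    exact ⟨c, congrArg Subtype.val hc⟩
  · exact M.spec.infinite
  · exact M.spec.trace.one
  · exact M.spec.trace.tracial
  · exact M.spec.trace.faithful
  · exact M.spec.normal

theorem convUltra {M : IIOneFactor.{u}} {U : Ultrafilter ℕ} (A : UltraPower M U) :
    H467F.IsTracialUltrapower (fun x : H467F.Elt M.N => M.t x) U
      (show (ℕ →ᵇ H467F.Elt M.N) →⋆ₐ[ℂ] A.Q from A.π) A.σ :=
  ⟨A.surj, A.ker, A.trace⟩

theorem convFree {I : Type} {A : I → TrAlg.{u}} (F : FreeProduct A) :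
    H467F.IsFreeProduct (fun i => (A i).σ) F.P F.t F.α :=
  ⟨⟨F.trace.one, F.trace.tracial, F.trace.faithful⟩, F.normal, F.preserves, F.free, F.gen⟩

/-- Free products of tracial ultrapowers of II₁ factors have unique free product decompositions:
if `*_{i ∈ I} N_i^U ≅ *_{j ∈ J} N'_j^U` then `|I| = |J|` and, after a bijection `e : I ≃ J`,
`N_i^U ≅ N'_{e i}^U`; in particular `N_i` and `N'_{e i}` are elementarily equivalent. -/
theorem result {I J : Type} [Fintype I] [Fintype J] [Nonempty I] [Nonempty J]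
    (N : I → IIOneFactor.{u}) (N' : J → IIOneFactor.{v}) (U : Ultrafilter ℕ)
    (hU : ∀ n, {n} ∉ U) (A : ∀ i, UltraPower (N i) U) (B : ∀ j, UltraPower (N' j) U)
    (F : FreeProduct fun i => (A i).toTrAlg) (G : FreeProduct fun j => (B j).toTrAlg)
    (h : FreeIso F G) :
    Fintype.card I = Fintype.card J ∧ ∃ e : I ≃ J, ∀ i, ElemEquiv (N i) (N' (e i)) ∧
      TrIso (A i).toTrAlg (B (e i)).toTrAlg := by
  obtain ⟨θ⟩ := h
  obtain ⟨e, he⟩ := H467F.main_iso (fun i => (N i).N) (fun i x => (N i).t x)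
    (fun i => convFactor (N i)) (fun j => (N' j).N) (fun j x => (N' j).t x)
    (fun j => convFactor (N' j)) U hU (fun i => (A i).π) (fun i => (A i).σ)
    (fun i => convUltra (A i)) (fun j => (B j).π) (fun j => (B j).σ) (fun j => convUltra (B j))
    F.P F.t F.α (convFree F) G.P G.t G.α (convFree G) θ
  refine ⟨Fintype.card_congr e, e, fun i => ?_⟩
  obtain ⟨φ, hφ⟩ := he i
  exact ⟨⟨U, U, hU, hU, A i, B (e i), φ, hφ⟩, φ, hφ⟩

end Pool.Agent.Results.MP_02fb88_an.KuroshUltra
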